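import Pool.Agent.H35.VS.DBVa
import Pool.Agent.H27.LV.Gen

/-!
# The estimate of the determinant, at all places (row DBV of the board `vs_modules`)
-/

set_option autoImplicit false

namespace Pool.Agent.H35.VS

open MvPolynomial SC Pool.Agent.H27.LV Pool.Agent.H17.VG Pool.Agent.H17.CI Pool.Agent.H17.VS

section

variable {R k K : Type} [Field R] [Field k] [Field K] [Algebra k K] [Algebra R K] {n : ℕ}
  {ι : Type}

theorem opV_der (θ : Derivation R K K) (x : Fin (n + 1) → K) (a : Fin (n + 1)) :
    opV ((θ, 0) : Op R K n) x a = θ (x a) := by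
  simp [opV]

theorem opF_der (θ : Derivation R K K) (G : MvPolynomial (Fin (n + 1)) K) :
    opF ((θ, 0) : Op R K n) G = cD θ G := by
  simp [opF]

theorem rat_der {θ : Derivation R K K} {l : ι → K} (h : PresK k θ)
    (hl : ∀ a, ∃ b : k, l a = algebraMap k K b) : RatT k ((θ, 0) : Op R K n) l :=
  ⟨⟨h, fun _ _ => ⟨0, by simp⟩⟩, hl⟩

theorem sym_der {F : Tup ι K n} {θ : Derivation R K K} {l : ι → K} {G : Tup ι K n}
    (h : ∀ a, smb F θ l a = G a) : Sym F ((θ, 0) : Op R K n) l G := by
  refine ⟨fun _ => rfl, fun a => ?_⟩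
  rw [opF_der, ← h a]
  rfl

end

/-- the columns with their local lifts -/
theorem col (hROW : T_ROW) {R k K : Type} [Field R] [Field k] [IsAlgClosed k] [CharZero k]
    [Field K] [Algebra k K] [Algebra R K] [Algebra.EssFiniteType k K]
    (htr : Algebra.trdeg k K = 1) {n s : ℕ} {ι : Type} [Fintype ι] {e : ι → ℕ} {F : Tup ι k n}
    (hF : ∀ i, (F i).IsHomogeneous (e i + 1)) {D : Derivation k K K} (hD : D ≠ 0)
    {x : Fin (n + 1) → K} (hx : x 0 = 1) (Q : Fin s → Tup ι k n) {θ : Derivation R K K}
    {l : ι → K} {i : Fin (n + 1)} {j : Option (Fin s)} (hθ : PresK k θ)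
    (hl : ∀ a, ∃ b : k, l a = algebraMap k K b)
    (h1 : ∀ j' : Fin s, j = some j' → ∀ a, smb (upT K F) θ l a = X i * upT K (Q j') a)
    (h2 : j = none → ∀ a, smb (upT K F) θ l a = 0) (v : DV k K) :
    (∀ b : Fin s, ge v (-(poleOrder v x)) (if j = some b then x i else 0)) ∧
    (∀ a : Fin n, ge v (-(poleOrder v x))
      (θ (x a.succ) - θ v.unif / D v.unif * D (x a.succ))) ∧
    ∀ a : ι, (∑ m : Fin n, eval x (pderiv m.succ (upT K F a)) *
        (θ (x m.succ) - θ v.unif / D v.unif * D (x m.succ)) +
      ∑ b : Fin s, eval x (upT K (Q b) a) * (if j = some b then x i else 0) =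
        (θ (eval x (upT K F a)) - θ v.unif / D v.unif * D (eval x (upT K F a))) +
          l a * eval x (upT K F a)) ∧
      (eval x (upT K F a) ≠ 0 → ge v (v.ord (eval x (upT K F a)))
        ((θ (eval x (upT K F a)) - θ v.unif / D v.unif * D (eval x (upT K F a))) +
          l a * eval x (upT K F a))) := by
  rcases j with _ | j
  · have hsym : Sym (upT K F) ((θ, 0) : Op R K n) l
        (fun a => X 0 * upT K ((fun _ _ => 0 : Fin 1 → Tup ι k n) 0) a) := by
      refine sym_der fun a => ?_
      rw [h2 rfl a]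
      simp [upT, up]
    obtain ⟨-, e2, -, -, e3⟩ := hROW R k K htr n 1 ι e F hF D hD x hx (fun _ _ => 0) (θ, 0) l 0 0
      (rat_der hθ hl) hsym v
    simp only [opV_der] at e2 e3
    refine ⟨fun b => ?_, e2, fun a => ⟨?_, fun h => ((e3 a).2.2 h).1⟩⟩
    · simp only [reduceCtorEq, if_false]
      exact Or.inl rfl
    · rw [← (e3 a).1]
      simp [upT, up]
  · obtain ⟨e1, e2, -, -, e3⟩ := hROW R k K htr n s ι e F hF D hD x hx Q (θ, 0) l i j
      (rat_der hθ hl) (sym_der (h1 j rfl)) v
    simp only [opV_der] at e2 e3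
    refine ⟨fun b => ?_, e2, fun a => ⟨?_, fun h => ((e3 a).2.2 h).1⟩⟩
    · split_ifs
      · exact e1
      · exact Or.inl rfl
    · rw [← (e3 a).1]
      congr 1
      simp only [Option.some.injEq, mul_ite, mul_zero, Finset.sum_ite_eq, Finset.mem_univ,
        if_true]

/-- the column of `D` -/
theorem colD (hROW : T_ROW) {k K : Type} [Field k] [IsAlgClosed k] [CharZero k]
    [Field K] [Algebra k K] [Algebra.EssFiniteType k K]
    (htr : Algebra.trdeg k K = 1) {n : ℕ} {ι : Type} [Fintype ι] {e : ι → ℕ} {F : Tup ι k n}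
    (hF : ∀ i, (F i).IsHomogeneous (e i + 1)) {D : Derivation k K K} (hD : D ≠ 0)
    {x : Fin (n + 1) → K} (hx : x 0 = 1) (v : DV k K) :
    (∀ a : Fin n, ge v (-(poleOrder v x) - 1 + ordD v D) (D (x a.succ))) ∧
    (poleOrder v x = 0 → ∀ a : Fin n, ge v (ordD v D) (D (x a.succ))) ∧
    ∀ i, (∑ a : Fin n, eval x (pderiv a.succ (upT K F i)) * D (x a.succ) =
        D (eval x (upT K F i))) ∧
      (eval x (upT K F i) ≠ 0 →
        ge v (v.ord (eval x (upT K F i)) - 1 + ordD v D) (D (eval x (upT K F i)))) := by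
  have hRat0 : RatT k ((0, 0) : Op k K n) (0 : ι → K) :=
    ⟨⟨fun a => ⟨0, by simp⟩, fun a b => ⟨0, by simp⟩⟩, fun a => ⟨0, by simp⟩⟩
  have hSym0 : Sym (upT K F) ((0, 0) : Op k K n) (0 : ι → K)
      (fun a => X 0 * upT K ((fun _ _ => 0 : Fin 1 → Tup ι k n) 0) a) := by
    refine ⟨fun _ => rfl, fun a => ?_⟩
    simp [opF, cD, upT, up]
  obtain ⟨-, -, e3, e4, e5⟩ := hROW k k K htr n 1 ι e F hF D hD x hx (fun _ _ => 0) (0, 0) 0 0 0
    hRat0 hSym0 v
  exact ⟨e3, e4, fun i => ⟨(e5 i).2.1, fun h => ((e5 i).2.2 h).2⟩⟩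

/-- the estimate of the determinant -/
theorem pf_DBV (hBV : T_BVV) (hNC : T_NCV) (hROW : T_ROW) (hDE : T_DEV) : T_DBV := by
  intro R k K _ _ _ _ _ _ _ _ _ _ _ htr n s ι _ _ e c hc D hD Z x hx0 hZ B g hgen hg Q κ _ _
    θ l i j J e0 hθ hl hsym hsym0 hJ hgJ v
  set F : Tup ι K n := upT K (frmT c) with hF
  have hhom : ∀ a, (frmT c a).IsHomogeneous (e a + 1) := fun a => frm_homog _
  obtain ⟨B', g', hcard, hg', hint⟩ := hBV R k K n x B g hg v
  obtain ⟨hgr, A, J', hJ', hgJ', hord, hnA⟩ := hNC R k K htr n ι e c hc D hD x B hx0 hgen v B' g'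
    hcard hg' hint
  have hcol := fun c' : κ => col hROW htr hhom hD hx0 Q (hθ c') (hl c') (hsym c') (hsym0 c') v
  obtain ⟨hD1, hD2, hD3⟩ := colD hROW htr hhom hD hx0 v
  have hZA : Z ⊆ A := by
    intro a ha
    by_contra h
    exact (hnA a h).1 ((hZ a).2 ha)
  set D' : Derivation R K K := D.restrictScalars R with hD'
  have hD'e : ∀ z, D' z = D z := fun z => rfl
  set lam : κ → K := fun c => θ c v.unif / D v.unif with hlam
  set σ : B ≃ B' := Fintype.equivOfCardEq (by simp [hcard]) with hσ
  set e1 : (κ ⊕ Unit) ⊕ Z ≃ B' ⊕ Fin s := e0.trans (Equiv.sumCongr σ (Equiv.refl _)) with he1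
  set M : Matrix (B' ⊕ Fin s) (κ ⊕ Unit) K := Matrix.of fun r c => match r, c with
    | Sum.inl a, Sum.inl c => θ c (x a.1.succ) - lam c * D (x a.1.succ)
    | Sum.inr b, Sum.inl c => if j c = some b then x (i c) else 0
    | Sum.inl a, Sum.inr _ => D (x a.1.succ)
    | Sum.inr _, Sum.inr _ => 0 with hM
  set N : Matrix (B' ⊕ Fin s) Z K := Matrix.of fun r z => match r with
    | Sum.inl a => g a.1 (J z)
    | Sum.inr _ => 0 with hN
  set W : Matrix (B' ⊕ Fin s) ((κ ⊕ Unit) ⊕ Z) K := Matrix.of fun r c => match r, c with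
    | Sum.inl a, Sum.inl (Sum.inl c) => θ c (x a.1.succ)
    | Sum.inr b, Sum.inl (Sum.inl c) => if j c = some b then x (i c) else 0
    | Sum.inl a, Sum.inl (Sum.inr _) => D (x a.1.succ)
    | Sum.inr _, Sum.inl (Sum.inr _) => 0
    | Sum.inl a, Sum.inr z => g a.1 (J z)
    | Sum.inr _, Sum.inr _ => 0 with hW
  set P : Matrix (B ⊕ Fin s) (B' ⊕ Fin s) K := Matrix.of fun r r' => match r, r' with
    | Sum.inl b, Sum.inl b' => g' b.1 b'
    | Sum.inl _, Sum.inr _ => 0
    | Sum.inr _, Sum.inl _ => 0
    | Sum.inr b, Sum.inr b' => if b = b' then 1 else 0 with hP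
  have hbig : bigV D x θ i j J = P * W := by
    ext r c'
    rw [Matrix.mul_apply, Fintype.sum_sum_type]
    rcases r with b | b
    · have h0 : ∀ b' : Fin s, P (Sum.inl b) (Sum.inr b') * W (Sum.inr b') c' = 0 := fun b' => by
        simp only [hP, Matrix.of_apply, zero_mul]
      rw [Finset.sum_congr rfl fun b' _ => h0 b', Finset.sum_const_zero, add_zero]
      rcases c' with (c' | c') | z
      · exact hg'.rel (θ c') b.1
      · exact hg'.rel D' b.1
      · have h1 := frame_frame hg hg' b.1 (J z)
        rw [diag hg b (J z)] at h1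
        simp only [bigV, hP, hW, Matrix.of_apply]
        rw [h1]
        exact if_congr eq_comm rfl rfl
    · have h0 : ∀ b' : B', P (Sum.inr b) (Sum.inl b') * W (Sum.inl b') c' = 0 := fun b' => by
        simp only [hP, Matrix.of_apply, zero_mul]
      rw [Finset.sum_congr rfl fun b' _ => h0 b', Finset.sum_const_zero, zero_add]
      have h1 : ∀ b' : Fin s, P (Sum.inr b) (Sum.inr b') * W (Sum.inr b') c' =
          if b = b' then W (Sum.inr b') c' else 0 := fun b' => by
        simp only [hP, Matrix.of_apply, ite_mul, one_mul, zero_mul]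
      rw [Finset.sum_congr rfl fun b' _ => h1 b', Finset.sum_ite_eq]
      simp only [Finset.mem_univ, if_true]
      rcases c' with (c' | c') | z
      · simp only [bigV, hW, Matrix.of_apply]
      · simp only [bigV, hW, Matrix.of_apply]
      · simp only [bigV, hW, Matrix.of_apply]
  have hWM : (W.submatrix e1 id).det = ((Matrix.fromCols M N).submatrix e1 id).det := by
    refine Pool.Agent.H51.CI.det_col' _ _
      (fun c => Sum.elim (Sum.elim lam fun _ => 0) (fun _ => 0) c)
      (Sum.inl (Sum.inr ())) rfl fun r c => ?_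
    simp only [Matrix.submatrix_apply, id]
    rcases e1 r with a | b
    · rcases c with (c | c) | z
      · simp only [hW, hM, Matrix.fromCols_apply_inl, Matrix.of_apply, Sum.elim_inl]
        ring
      · simp only [hW, hM, Matrix.fromCols_apply_inl, Matrix.of_apply, Sum.elim_inl,
          Sum.elim_inr]
        ring
      · simp only [hW, hM, hN, Matrix.fromCols_apply_inl, Matrix.fromCols_apply_inr,
          Matrix.of_apply, Sum.elim_inr]
        ring
    · rcases c with (c | c) | z
      · simp only [hW, hM, Matrix.fromCols_apply_inl, Matrix.of_apply, Sum.elim_inl]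
        ring
      · simp only [hW, hM, Matrix.fromCols_apply_inl, Matrix.of_apply, Sum.elim_inl,
          Sum.elim_inr]
        ring
      · simp only [hW, hM, hN, Matrix.fromCols_apply_inl, Matrix.fromCols_apply_inr,
          Matrix.of_apply, Sum.elim_inr]
        ring
  have hdet : ((bigV D x θ i j J).submatrix e0 id).det =
      (P.submatrix e0 e1).det * ((Matrix.fromCols M N).submatrix e1 id).det := by
    rw [← hWM, ← Matrix.det_mul, Matrix.submatrix_mul_equiv, hbig]
  have hPint : ge v 0 (P.submatrix e0 e1).det := by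
    refine ge_det _ fun a b => ?_
    rw [Matrix.submatrix_apply]
    rcases e0 a with a' | a' <;> rcases e1 b with b' | b'
    · exact hint _ _
    · exact Or.inl rfl
    · exact Or.inl rfl
    · simp only [hP, Matrix.of_apply]
      split_ifs
      · exact ge_one v
      · exact Or.inl rfl
  -- the combinations of the rows
  set gt : ι → B' ⊕ Fin s → K := fun a => Sum.elim
    (fun b => grB F x g' a b) (fun b => eval x (upT K (Q b) a)) with hgt
  have hsumc : ∀ (a : ι) (c' : κ), ∑ r, gt a r * M r (Sum.inl c') =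
      (θ c' (eval x (F a)) - lam c' * D (eval x (F a))) + l c' a * eval x (F a) := by
    intro a c'
    rw [← ((hcol c').2.2 a).1, Fintype.sum_sum_type]
    congr 1
    exact grB_sum hg' F a (θ c' - lam c' • D')
  have hsumu : ∀ a : ι, ∑ r, gt a r * M r (Sum.inr ()) = D (eval x (F a)) := by
    intro a
    rw [Fintype.sum_sum_type]
    have h2 : ∀ b : Fin s, gt a (Sum.inr b) * M (Sum.inr b) (Sum.inr ()) = 0 := by
      intro b
      simp only [hM, Matrix.of_apply, mul_zero]
    rw [Finset.sum_congr rfl fun b _ => h2 b, Finset.sum_const_zero, add_zero, ← (hD3 a).1]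
    exact grB_sum hg' F a D'
  have hsumN : ∀ (a : ι) (z : Z), ∑ r, gt a r * N r z = grB F x g a (J z) := by
    intro a z
    rw [Fintype.sum_sum_type]
    have h2 : ∀ b : Fin s, gt a (Sum.inr b) * N (Sum.inr b) z = 0 := by
      intro b
      simp only [hN, Matrix.of_apply, mul_zero]
    rw [Finset.sum_congr rfl fun b _ => h2 b, Finset.sum_const_zero, add_zero]
    exact grB_frame hg hg' F a (J z)
  have hMl : ∀ r c', ge v (-(poleOrder v x)) (M r (Sum.inl c')) := by
    intro r c'
    rcases r with a | b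
    · exact (hcol c').2.1 a.1
    · exact (hcol c').1 b
  have hΦ : (Matrix.of fun a a' : Z => ∑ r, gt a r * N r a').det = gJB F x g J := by
    rw [gJB_eq]
    congr 1
    ext a a'
    exact hsumN _ _
  obtain ⟨J1, hJ1, hJ1d⟩ := exists_minor (fun (z : Z) (b : B') => grB F x g' z b)
    (fun (b : B') (z : Z) => g b.1 (J z)) (by
      rw [gJB_eq] at hgJ
      refine fun h => hgJ (Eq.trans ?_ h)
      congr 1
      ext a a'
      exact (grB_frame hg hg' F a (J a')).symm)
  have hJ2 : Function.Injective (fun z => Sum.inl (J1 z) : Z → B' ⊕ Fin s) :=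
    fun a b h => hJ1 (Sum.inl_injective h)
  have hJ2' : Function.Injective (fun z => Sum.inl (J' z) : A → B' ⊕ Fin s) :=
    fun a b h => hJ' (Sum.inl_injective h)
  have hgA : (Matrix.of fun a a' : A => gt a (Sum.inl (J' a'))).det = gJB F x g' J' :=
    (gJB_eq F x g' J').symm
  have hcard' : Fintype.card (B' ⊕ Fin s) = B.card + s := by simp [hcard]
  refine ⟨?_, fun hp0 hord0 => ?_⟩
  · have h := hDE k K v (B' ⊕ Fin s) κ ι Z A M N (fun z => Sum.inl (J1 z))
      (fun z => Sum.inl (J' z)) gt e1 (poleOrder v x) (-1 + ordD v D)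
      (fun a => v.ord (eval x (F a))) (-((∑ i ∈ A, e i : ℕ) * poleOrder v x)) hZA hJ2 hJ2'
      (by rw [hgA]; exact hgJ') (by rw [hgA]; exact hord) hJ1d hMl
      (fun r => by
        rcases r with a | b
        · have := hD1 a.1
          rw [show -((poleOrder v x : ℕ) : ℤ) + (-1 + ordD v D) =
            -(poleOrder v x : ℤ) - 1 + ordD v D by ring]
          exact this
        · exact Or.inl rfl)
      (fun a ha c => by
        have h0 : eval x (F a) = 0 := (hZ a).2 ha
        rcases c with c | c
        · rw [hsumc, h0, map_zero, map_zero]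
          ring
        · rw [hsumu, h0, map_zero])
      (fun a _ haZ => by
        have h0 : eval x (F a) ≠ 0 := fun h => haZ ((hZ a).1 h)
        refine ⟨fun c => ?_, ?_⟩
        · rw [hsumc]
          exact ((hcol c).2.2 a).2 h0
        · rw [hsumu]
          have := (hD3 a).2 h0
          rw [show v.ord (eval x (F a)) + (-1 + ordD v D) =
            v.ord (eval x (F a)) - 1 + ordD v D by ring]
          exact this)
      (by rw [hΦ]; exact hgJ)
    rw [hdet]
    rw [hΦ] at h
    have e1' : ∑ a ∈ Finset.univ \ Z, v.ord (eval x (F a)) =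
        ∑ a ∈ A \ Z, v.ord (eval x (F a)) -
          (∑ a ∈ Finset.univ \ A, ((e a : ℤ) + 1)) * poleOrder v x := by
      have h1 : Finset.univ \ Z = (A \ Z) ∪ (Finset.univ \ A) := by
        ext a
        simp only [Finset.mem_sdiff, Finset.mem_univ, true_and, Finset.mem_union]
        constructor
        · intro h2
          by_cases h3 : a ∈ A
          · exact Or.inl ⟨h3, h2⟩
          · exact Or.inr h3
        · rintro (h2 | h2)
          · exact h2.2
          · exact fun h3 => h2 (hZA h3)
      rw [h1, Finset.sum_union]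
      · rw [sub_eq_add_neg]
        congr 1
        rw [Finset.sum_mul, ← Finset.sum_neg_distrib]
        refine Finset.sum_congr rfl fun a ha => ?_
        have h2 := (hnA a (Finset.mem_sdiff.1 ha).2).2
        rw [h2]
        push_cast
        ring
      · rw [Finset.disjoint_left]
        intro a h2 h3
        exact (Finset.mem_sdiff.1 h3).2 (Finset.mem_sdiff.1 h2).1
    have e2' : ((∑ a, (e a + 1) : ℕ) : ℤ) = (∑ a ∈ A, (e a : ℤ)) + A.card +
        ∑ a ∈ Finset.univ \ A, ((e a : ℤ) + 1) := by
      rw [← Finset.sum_sdiff (Finset.subset_univ A)]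
      push_cast
      rw [Finset.sum_add_distrib (s := A), Finset.sum_const, nsmul_eq_mul, mul_one]
      ring
    refine (hPint.mul h).mono (le_of_eq ?_)
    rw [e1', e2', hcard']
    push_cast
    ring
  · have h := hDE k K v (B' ⊕ Fin s) κ ι Z A M N (fun z => Sum.inl (J1 z))
      (fun z => Sum.inl (J' z)) gt e1 (poleOrder v x) (ordD v D)
      (fun _ => 0) (-((∑ i ∈ A, e i : ℕ) * poleOrder v x)) hZA hJ2 hJ2'
      (by rw [hgA]; exact hgJ') (by rw [hgA]; exact hord) hJ1d hMl
      (fun r => by
        rcases r with a | b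
        · have := hD2 hp0 a.1
          rw [hp0, Nat.cast_zero, neg_zero, zero_add]
          exact this
        · exact Or.inl rfl)
      (fun a ha c => by
        have h0 : eval x (F a) = 0 := (hZ a).2 ha
        rcases c with c | c
        · rw [hsumc, h0, map_zero, map_zero]
          ring
        · rw [hsumu, h0, map_zero])
      (fun a _ haZ => by
        have h0 : eval x (F a) ≠ 0 := fun h => haZ ((hZ a).1 h)
        refine ⟨fun c => ?_, ?_⟩
        · rw [hsumc]
          have := ((hcol c).2.2 a).2 h0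
          rw [hord0 a haZ] at this
          exact this
        · rw [Fintype.sum_sum_type]
          have h2 : ∀ b : Fin s, gt a (Sum.inr b) * M (Sum.inr b) (Sum.inr ()) = 0 := by
            intro b
            simp only [hM, Matrix.of_apply, mul_zero]
          rw [Finset.sum_congr rfl fun b _ => h2 b, Finset.sum_const_zero, add_zero]
          refine ge_sum v _ _ _ fun b _ => ?_
          have h1 := hgr a b
          rw [hp0, Nat.cast_zero, mul_zero, neg_zero] at h1
          exact ge.mul h1 (hD2 hp0 b.1))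
      (by rw [hΦ]; exact hgJ)
    rw [hdet]
    rw [hΦ] at h
    refine (hPint.mul h).mono (le_of_eq ?_)
    rw [hp0, hcard']
    simp

end Pool.Agent.H35.VS
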