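import Pool.Agent.H17.VS.TargetsA
import Pool.Agent.H17.VS.TargetsD
import Pool.Agent.H17.CI.DT
import Pool.Agent.H64.CI.DET
import Pool.Agent.H51.CI.DBT

/-!
# Frames and determinants (for the row DBV of the board `vs_modules`)
-/

set_option autoImplicit false

namespace Pool.Agent.H35.VS

open MvPolynomial SC Pool.Agent.H27.LV Pool.Agent.H17.VG Pool.Agent.H17.CI Pool.Agent.H17.VS

section

variable {R K : Type} [Field R] [Field K] [Algebra R K] {n : ℕ} {ι : Type}

theorem gJB_eq [DecidableEq ι] {A : Finset ι} {B : Finset (Fin n)} (F : Tup ι K n)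
    (x : Fin (n + 1) → K) (g : Fin n → B → K) (J : A → B) :
    gJB F x g J = (Matrix.of fun i i' : A => grB F x g i (J i')).det := by
  unfold gJB
  congr

/-- the gradients with respect to a frame, applied to the velocity of a derivation -/
theorem grB_sum {B : Finset (Fin n)} {g : Fin n → B → K} {x : Fin (n + 1) → K}
    (h : Fr R x B g) (F : Tup ι K n) (i : ι) (θ : Derivation R K K) :
    ∑ b : B, grB F x g i b * θ (x b.1.succ) =
      ∑ a : Fin n, eval x (pderiv a.succ (F i)) * θ (x a.succ) := by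
  have h1 : ∀ a : Fin n, eval x (pderiv a.succ (F i)) * θ (x a.succ) =
      ∑ b : B, eval x (pderiv a.succ (F i)) * g a b * θ (x b.1.succ) := by
    intro a
    rw [h.rel θ a, Finset.mul_sum]
    exact Finset.sum_congr rfl fun b _ => (mul_assoc _ _ _).symm
  rw [Finset.sum_congr rfl fun a _ => h1 a, Finset.sum_comm]
  refine Finset.sum_congr rfl fun b _ => ?_
  unfold grB
  rw [Finset.sum_mul]

/-- the derivation dual to a coordinate -/
theorem dual {B : Finset (Fin n)} {g : Fin n → B → K} {x : Fin (n + 1) → K}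
    (h : Fr R x B g) (b : B) : ∃ θ : Derivation R K K, (∀ a, θ (x a.succ) = g a b) ∧
      ∀ b' : B, θ (x b'.1.succ) = if b' = b then 1 else 0 := by
  obtain ⟨θ, hθ⟩ := h.surj fun b' => if b' = b then 1 else 0
  refine ⟨θ, fun a => ?_, hθ⟩
  rw [h.rel θ a, Finset.sum_congr rfl fun b' _ => by rw [hθ b']]
  simp

theorem diag {B : Finset (Fin n)} {g : Fin n → B → K} {x : Fin (n + 1) → K}
    (h : Fr R x B g) (b' b : B) : g b'.1 b = if b' = b then 1 else 0 := by
  obtain ⟨θ, h1, h2⟩ := dual h b
  rw [← h1, h2]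

theorem frame_frame {B B' : Finset (Fin n)} {g : Fin n → B → K} {g' : Fin n → B' → K}
    {x : Fin (n + 1) → K} (h : Fr R x B g) (h' : Fr R x B' g') (a : Fin n) (b : B) :
    ∑ b' : B', g' a b' * g b'.1 b = g a b := by
  obtain ⟨θ, h1, -⟩ := dual h b
  rw [← h1 a, h'.rel θ a]
  exact Finset.sum_congr rfl fun b' _ => by rw [h1]

theorem grB_frame {B B' : Finset (Fin n)} {g : Fin n → B → K} {g' : Fin n → B' → K}
    {x : Fin (n + 1) → K} (h : Fr R x B g) (h' : Fr R x B' g') (F : Tup ι K n) (i : ι) (b : B) :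
    ∑ b' : B', grB F x g' i b' * g b'.1 b = grB F x g i b := by
  obtain ⟨θ, h1, -⟩ := dual h b
  have h2 := grB_sum h' F i θ
  simp only [h1] at h2
  rw [h2]
  rfl

end

section

variable {k K : Type} [Field k] [Field K] [Algebra k K] {v : DV k K}

theorem ge_det {m : Type} [Fintype m] [DecidableEq m] (M : Matrix m m K)
    (h : ∀ i j, ge v 0 (M i j)) : ge v 0 M.det := by
  rw [Matrix.det_apply']
  apply ge_sum
  intro σ _
  apply Pool.Agent.H64.CI.ge_sign
  have h3 := Pool.Agent.H64.CI.ge_prod (v := v) Finset.univ (fun i => M (σ i) i)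
    (fun _ => 0) (fun i _ => h _ _)
  simpa using h3

end

section

variable {K : Type} [Field K]

/-- a nonzero minor of the left factor of an invertible product -/
theorem exists_minor {ν β : Type} [Fintype ν] [DecidableEq ν] [Fintype β]
    (Φ : ν → β → K) (N : β → ν → K)
    (h : (Matrix.of fun i i' : ν => ∑ r, Φ i r * N r i').det ≠ 0) :
    ∃ J : ν → β, Function.Injective J ∧ (Matrix.of fun i i' : ν => Φ i (J i')).det ≠ 0 := by
  have hli : LinearIndependent K Φ := by
    rw [Fintype.linearIndependent_iff]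
    intro c hc
    have h1 : Matrix.vecMul c (Matrix.of fun i i' : ν => ∑ r, Φ i r * N r i') = 0 := by
      funext i'
      simp only [Matrix.vecMul, dotProduct, Matrix.of_apply, Pi.zero_apply]
      simp only [Finset.mul_sum]
      rw [Finset.sum_comm]
      refine Finset.sum_eq_zero fun r _ => ?_
      have h2 := congrFun hc r
      simp only [Finset.sum_apply, Pi.smul_apply, smul_eq_mul, Pi.zero_apply] at h2
      rw [Finset.sum_congr rfl fun i _ => (mul_assoc (c i) (Φ i r) (N r i')).symm,
        ← Finset.sum_mul, h2, zero_mul]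
    have h3 := Matrix.eq_zero_of_vecMul_eq_zero h h1
    exact fun i => congrFun h3 i
  obtain ⟨J, hJ⟩ := exists_J Φ hli
  exact ⟨J, inj_of_det Φ J hJ, hJ⟩

end

end Pool.Agent.H35.VS
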